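import Mathlib
import Pool.Agent.Y395.GX.Stm

/-!
# A graph which is not `k`-colourable has a subgraph of minimum degree `k`
-/

set_option autoImplicit false

namespace Pool.Agent.Y288.GX

open Finset Pool.Agent.Y395.GX

open scoped Classical in
theorem color {V : Type} [Fintype V] (G : SimpleGraph V) (k : ℕ)
    (h : ∀ W : Finset V, W.Nonempty → ∃ v ∈ W, (W.filter (fun w => G.Adj v w)).card < k) :
    ∀ (n : ℕ) (W : Finset V), W.card = n → ∃ c : V → ℕ, (∀ v ∈ W, c v < k) ∧
      ∀ u ∈ W, ∀ v ∈ W, G.Adj u v → c u ≠ c v := by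
  intro n
  induction n with
  | zero =>
    intro W hW
    rw [Finset.card_eq_zero] at hW
    subst hW
    exact ⟨fun _ => 0, by simp, by simp⟩
  | succ n ih =>
    intro W hW
    obtain ⟨v, hv, hdeg⟩ := h W (Finset.card_pos.1 (by omega))
    obtain ⟨c, hc1, hc2⟩ := ih (W.erase v) (by rw [Finset.card_erase_of_mem hv]; omega)
    obtain ⟨j, hj, hj2⟩ : ∃ j ∈ Finset.range k,
        j ∉ (W.filter (fun w => G.Adj v w)).image c := by
      apply Finset.exists_mem_notMem_of_card_lt_card
      rw [Finset.card_range]
      exact lt_of_le_of_lt Finset.card_image_le hdeg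
    rw [Finset.mem_range] at hj
    have hne : ∀ w ∈ W, G.Adj v w → c w ≠ j := by
      intro w hw hvw hcw
      exact hj2 (Finset.mem_image.2 ⟨w, Finset.mem_filter.2 ⟨hw, hvw⟩, hcw⟩)
    refine ⟨Function.update c v j, ?_, ?_⟩
    · intro u hu
      by_cases huv : u = v
      · rw [huv, Function.update_self]
        exact hj
      · rw [Function.update_of_ne huv]
        exact hc1 u (Finset.mem_erase.2 ⟨huv, hu⟩)
    · intro u hu w hw huw
      by_cases huv : u = v
      · have hwv : w ≠ v := by
          rintro rfl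
          exact huw.ne huv
        rw [huv, Function.update_self, Function.update_of_ne hwv]
        exact (hne w hw (huv ▸ huw)).symm
      · by_cases hwv : w = v
        · rw [hwv, Function.update_self, Function.update_of_ne huv]
          exact hne u hu (hwv ▸ huw.symm)
        · rw [Function.update_of_ne huv, Function.update_of_ne hwv]
          exact hc2 u (Finset.mem_erase.2 ⟨huv, hu⟩) w (Finset.mem_erase.2 ⟨hwv, hw⟩) huw

theorem main : SDeg := by
  classical
  intro V _ G k hk
  by_contra hcon
  push Not at hcon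
  apply hk
  obtain ⟨c, hc1, hc2⟩ := color G k (by
    intro W hW
    obtain ⟨v, hv, h1⟩ := hcon W hW
    refine ⟨v, hv, ?_⟩
    convert h1) _ (Finset.univ : Finset V) rfl
  exact ⟨SimpleGraph.Coloring.mk (fun v => (⟨c v, hc1 v (Finset.mem_univ v)⟩ : Fin k))
    (fun {u w} huw h => hc2 u (Finset.mem_univ u) w (Finset.mem_univ w) huw
      (congrArg Fin.val h))⟩

end Pool.Agent.Y288.GX
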